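import Pool.Agent.Helper58P.Strong

/-!
# Length-nondecreasing reductions and polynomial-time isomorphism: the question is `P = PSPACE`

Question Q1 asks whether all sets `A`, `B` which are equivalent via reductions that are 1-1, length
nondecreasing and p-invertible are p-isomorphic. We prove:

1. Q1 holds if and only if `P = PSPACE`.
2. The same for reductions which are only 1-1 and length nondecreasing.
3. The same for reductions which are 1-1 and p-invertible with `|x| ≤ |f(x)| ≤ |x| + 2`. So if
   `P ≠ PSPACE`, then Berman's and Hartmanis' theorem fails for reductions which lengthen no string by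
   more than two letters and shorten none.
4. But if the reductions are 1-1, length nondecreasing and p-invertible and one of the two is length
   increasing, then `A` and `B` are p-isomorphic, without any hypothesis.

So the only obstacle is that a step from `A` to `B` and back may keep the length, and it is as strong as
`P ≠ PSPACE`.

Definitions (library files `Pool.Agent.NPC`, `Pool.Agent.H550R2.Iso`): polynomial time and space are those
of Mathlib's Turing machines `Turing.FinTM2` (finitely many stacks). `PolyTime f`: a machine computes `f`
in polynomial time. `InP L`: the membership in `L` is tested by a polynomial-time function. `InPSPACE L`: a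
machine decides `L` (it halts on all inputs) and every stack of every configuration reached from the
input `x` has at most `p |x|` letters, `p` a polynomial.

The implication from Q1 to `P = PSPACE` is the theorem `pspace_of_Q1` of the library (a project which was
never handed in): a computation in polynomial space is turned into a closed walk of a polynomial-time
permutation (an Euler tour of the configuration graph), whose orbits become the components of the graph
of the reductions `f`, `g`; the sets are generic unions of components, so an isomorphism must preserve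
almost all components, and counting along it gives the answer of the computation.
-/

set_option autoImplicit false

namespace Pool.Agent.Results.MP_88f784_lc.PvsPSPACE

open Pool.Agent.NPC Pool.Agent.NPC.PIso Function

/-- `P = PSPACE` -/
def PEqPSPACE : Prop := ∀ L : Set (List Bool), InP L ↔ InPSPACE L

/-- `A` and `B` are equivalent via reductions with the property `X`. -/
def Equivalent (X : (List Bool → List Bool) → Prop) (A B : Set (List Bool)) : Prop :=
  (∃ f, IsReduction A B f ∧ X f) ∧ ∃ g, IsReduction B A g ∧ X g

theorem collapse_iff : PEqPSPACE ↔ H58.Collapse :=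
  ⟨fun h L hL => (h L).2 hL, fun h L => ⟨inPSPACE_of_inP, h L⟩⟩

/-- (1) `P = PSPACE` iff any two sets which are equivalent via 1-1, length-nondecreasing, p-invertible
reductions are p-isomorphic. (2) The same without p-invertibility. (3) The same for reductions which
lengthen every string by at most two letters. (4) Two sets are p-isomorphic if they are equivalent via
1-1, length-nondecreasing, p-invertible reductions one of which is length increasing. -/
theorem result :
    (PEqPSPACE ↔ ∀ A B : Set (List Bool),
      Equivalent (fun f => Injective f ∧ (∀ x, x.length ≤ (f x).length) ∧ PInvertible f) A B →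
        PIsomorphic A B) ∧
    (PEqPSPACE ↔ ∀ A B : Set (List Bool),
      Equivalent (fun f => Injective f ∧ ∀ x, x.length ≤ (f x).length) A B → PIsomorphic A B) ∧
    (PEqPSPACE ↔ ∀ A B : Set (List Bool),
      Equivalent (fun f => Injective f ∧ (∀ x, x.length ≤ (f x).length ∧
        (f x).length ≤ x.length + 2) ∧ PInvertible f) A B → PIsomorphic A B) ∧
    ∀ (A B : Set (List Bool)) (f g : List Bool → List Bool),
      IsReduction A B f → (∀ x, x.length ≤ (f x).length) → PInvertible f →
      IsReduction B A g → (∀ x, x.length ≤ (g x).length) → PInvertible g →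
      ((∀ x, x.length < (f x).length) ∨ ∀ x, x.length < (g x).length) → PIsomorphic A B := by
  rw [collapse_iff]
  refine ⟨⟨fun h A B hAB => ?_, fun h => ?_⟩, ⟨fun h A B hAB => ?_, fun h => ?_⟩,
    ⟨fun h A B hAB => ?_, fun h => ?_⟩, fun A B f g hf fl fp hg gl gp h => ?_⟩
  · obtain ⟨⟨f, hf, fi, fl, _⟩, g, hg, gi, gl, _⟩ := hAB
    exact H58.q1w_of_collapse h A B ⟨f, hf, fi, fl⟩ ⟨g, hg, gi, gl⟩
  · refine H58.collapse_of_q1 fun A B hf hg => h A B ⟨?_, ?_⟩
    · obtain ⟨f, hf, fi, fl, fp⟩ := hf
      exact ⟨f, hf, fi, fl, fp⟩
    · obtain ⟨g, hg, gi, gl, gp⟩ := hg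
      exact ⟨g, hg, gi, gl, gp⟩
  · obtain ⟨⟨f, hf, fi, fl⟩, g, hg, gi, gl⟩ := hAB
    exact H58.q1w_of_collapse h A B ⟨f, hf, fi, fl⟩ ⟨g, hg, gi, gl⟩
  · refine H58.collapse_of_q1 fun A B hf hg => h A B ⟨?_, ?_⟩
    · obtain ⟨f, hf, fi, fl, _⟩ := hf
      exact ⟨f, hf, fi, fl⟩
    · obtain ⟨g, hg, gi, gl, _⟩ := hg
      exact ⟨g, hg, gi, gl⟩
  · obtain ⟨⟨f, hf, fi, fl, _⟩, g, hg, gi, gl, _⟩ := hAB
    exact H58.q1w_of_collapse h A B ⟨f, hf, fi, fun x => (fl x).1⟩ ⟨g, hg, gi, fun x => (gl x).1⟩
  · refine H58.collapse_of_q1s fun A B hf hg => h A B ⟨?_, ?_⟩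
    · obtain ⟨f, hf, fi, fl, fp, f2⟩ := hf
      exact ⟨f, hf, fi, fun x => ⟨fl x, f2 x⟩, fp⟩
    · obtain ⟨g, hg, gi, gl, gp, g2⟩ := hg
      exact ⟨g, hg, gi, fun x => ⟨gl x, g2 x⟩, gp⟩
  · exact H58.q1i A B f g hf fp.1 fl fp hg gp.1 gl gp h

end Pool.Agent.Results.MP_88f784_lc.PvsPSPACE
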